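import Pool.Agent.QSX.StmtsG

set_option autoImplicit false

namespace Pool.Agent.QSX.H11

open Matrix Finset

theorem ud_zero {m : ℕ} : ud (0 : Fin m → ℝ) = 1 := by
  apply Units.ext
  change (diagonal fun i => Real.exp ((0 : Fin m → ℝ) i)) = 1
  rw [← diagonal_one]
  congr 1
  funext i
  rw [Pi.zero_apply, Real.exp_zero]

theorem sz_smul {m : ℕ} (t : ℝ) (e : Matrix (Fin m) (Fin m) ℝ) : sz (t • e) = |t| * sz e := by
  unfold sz
  rw [Finset.mul_sum]
  refine Finset.sum_congr rfl fun i _ => ?_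
  rw [Finset.mul_sum]
  refine Finset.sum_congr rfl fun j _ => ?_
  rw [Matrix.smul_apply, smul_eq_mul, abs_mul]

theorem sz_pos {m : ℕ} (e : Matrix (Fin m) (Fin m) ℝ) (h : e ≠ 0) : 0 < sz e := by
  unfold sz
  have h1 : ∃ i j, e i j ≠ 0 := by
    by_contra h2
    push Not at h2
    apply h
    ext i j
    exact h2 i j
  obtain ⟨i, j, hij⟩ := h1
  refine Finset.sum_pos' (fun i _ => Finset.sum_nonneg fun j _ => abs_nonneg _) ⟨i, Finset.mem_univ _, ?_⟩
  exact Finset.sum_pos' (fun j _ => abs_nonneg _) ⟨j, Finset.mem_univ _, abs_pos.2 hij⟩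

theorem low (hP : PlnStmt) : LowStmt := by
  intro m e he hne
  obtain ⟨K, hK, h⟩ := hP m
  have hs := sz_pos e hne
  refine ⟨1 / K, 1 - Real.log (sz e) / K, by positivity, fun t ht => ?_⟩
  obtain ⟨-, h2, -⟩ := h (t • e) 0 (he.smul t)
  rw [ud_zero, mul_one, sz_smul] at h2
  have h3 : 0 < |t| * sz e := mul_pos (abs_pos.2 ht) hs
  have h4 : Real.log (|t| * sz e) ≤ Real.log (1 + |t| * sz e) :=
    Real.log_le_log h3 (by linarith)
  rw [Real.log_mul (abs_pos.2 ht).ne' hs.ne'] at h4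
  have h5 : Real.log |t| + Real.log (sz e) ≤ K * (len (ue (t • e)) + 1) := h4.trans h2
  have h6 : (Real.log |t| + Real.log (sz e)) / K ≤ len (ue (t • e)) + 1 := by
    rw [div_le_iff₀ hK]; linarith
  have h7 : 1 / K * Real.log |t| + Real.log (sz e) / K = (Real.log |t| + Real.log (sz e)) / K := by
    ring
  linarith

end Pool.Agent.QSX.H11
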